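import Pool.Agent.helper22.DL.SpecE3

/-! EGS: the background metric. -/

namespace Pool.Agent.DL

open Matrix Complex MeasureTheory Set Filter Topology
open scoped ComplexOrder Manifold ContDiff ComplexConjugate

noncomputable section

/-- The real linear form `v ↦ Re (α v)`. -/
def EGS_L (α : ℂ) : ℂ →L[ℝ] ℝ := Complex.reCLM.comp ((ContinuousLinearMap.mul ℝ ℂ) α)

theorem EGS_L_apply (α v : ℂ) : EGS_L α v = (α * v).re := rfl

theorem EGS_L_smul (c : ℝ) (α : ℂ) : c • EGS_L α = EGS_L (c * α) := by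
  ext v
  show c * (α * v).re = ((c : ℂ) * α * v).re
  rw [mul_assoc, Complex.re_ofReal_mul]

theorem EGS_L_add (α β : ℂ) : EGS_L α + EGS_L β = EGS_L (α + β) := by
  ext v
  show (α * v).re + (β * v).re = ((α + β) * v).re
  rw [add_mul, Complex.add_re]

theorem EGS_dz {u : ℂ → ℝ} {α z : ℂ} (h : HasFDerivAt u (EGS_L α) z) :
    dz (fun w => ((u w : ℝ) : ℂ)) z = α / 2 := by
  have h1 : HasFDerivAt (fun w => ((u w : ℝ) : ℂ)) (Complex.ofRealCLM.comp (EGS_L α)) z :=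
    Complex.ofRealCLM.hasFDerivAt.comp z h
  unfold dz
  rw [h1.fderiv]
  show ((((α * 1).re : ℝ) : ℂ) - I * (((α * I).re : ℝ) : ℂ)) / 2 = α / 2
  congr 1
  apply Complex.ext <;> simp

theorem EGS_sq {f : ℂ → ℂ} {f' z : ℂ} (h : HasDerivAt f f' z) :
    HasFDerivAt (fun w => ‖f w‖ ^ 2) (EGS_L (2 * (conj (f z) * f'))) z := by
  have h1 : HasFDerivAt f ((ContinuousLinearMap.toSpanSingleton ℂ f').restrictScalars ℝ) z := by
    exact h.hasFDerivAt.restrictScalars ℝ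
  have h2 := h1.norm_sq
  refine h2.congr_fderiv ?_
  ext v
  simp only [EGS_L_apply, _root_.smul_apply, ContinuousLinearMap.comp_apply,
    ContinuousLinearMap.coe_restrictScalars', innerSL_apply_apply]
  rw [Complex.inner]
  simp only [ContinuousLinearMap.toSpanSingleton_apply, smul_eq_mul, nsmul_eq_mul, mul_re, mul_im,
    conj_re, conj_im]
  simp
  ring

theorem EGS_pow4 {u : ℂ → ℝ} {α z : ℂ} (h : HasFDerivAt u (EGS_L α) z) :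
    HasFDerivAt (fun w => u w ^ 4) (EGS_L ((4 * u z ^ 3 : ℝ) * α)) z := by
  have h1 := h.pow 4
  refine h1.congr_fderiv ?_
  rw [← EGS_L_smul]
  simp

theorem EGS_add {u v : ℂ → ℝ} {α β z : ℂ} (h : HasFDerivAt u (EGS_L α) z)
    (h' : HasFDerivAt v (EGS_L β) z) : HasFDerivAt (fun w => u w + v w) (EGS_L (α + β)) z := by
  rw [← EGS_L_add]
  exact h.add h'

theorem EGS_one_add {u : ℂ → ℝ} {α z : ℂ} (h : HasFDerivAt u (EGS_L α) z) :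
    HasFDerivAt (fun w => 1 + u w) (EGS_L α) z := h.const_add 1

theorem EGS_norm {f : ℂ → ℂ} {f' z : ℂ} (h : HasDerivAt f f' z) (h0 : f z ≠ 0) :
    HasFDerivAt (fun w => ‖f w‖) (EGS_L ((‖f z‖⁻¹ : ℝ) * (conj (f z) * f'))) z := by
  have h1 := EGS_sq h
  have h2 : ‖f z‖ ^ 2 ≠ 0 := pow_ne_zero 2 (norm_ne_zero_iff.2 h0)
  have h3 := h1.sqrt h2
  have h4 : (fun w => ‖f w‖) = fun w => Real.sqrt (‖f w‖ ^ 2) := by
    funext w
    rw [Real.sqrt_sq (norm_nonneg _)]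
  rw [h4]
  refine h3.congr_fderiv ?_
  rw [Real.sqrt_sq (norm_nonneg _), EGS_L_smul]
  congr 1
  push_cast
  have h5 : (‖f z‖ : ℂ) ≠ 0 := by exact_mod_cast norm_ne_zero_iff.2 h0
  field_simp

/-- `lap (log (A + B))`. -/
theorem EGS_logsum (hLA : LA_stmt) (A B : ℂ → ℝ) (z x y : ℂ) (lA lB : ℝ)
    (cA : ContDiffAt ℝ 2 A z) (cB : ContDiffAt ℝ 2 B z) (pA : 0 < A z) (pB : 0 < B z)
    (dA : dz (fun w => ((A w : ℝ) : ℂ)) z = x) (dB : dz (fun w => ((B w : ℝ) : ℂ)) z = y)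
    (dS : dz (fun w => (((A w + B w : ℝ)) : ℂ)) z = x + y)
    (eA : lap (fun w => Real.log (A w)) z = lA) (eB : lap (fun w => Real.log (B w)) z = lB) :
    lap (fun w => Real.log (A w + B w)) z =
      (A z * lA + B z * lB) / (A z + B z) + ‖(B z : ℂ) * x - (A z : ℂ) * y‖ ^ 2 /
        (A z * B z * (A z + B z) ^ 2) := by
  have h1 := hLA.2 A z cA pA
  have h2 := hLA.2 B z cB pB
  have h3 := hLA.2 (fun w => A w + B w) z (cA.add cB) (add_pos pA pB)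
  have h4 := hLA.1 A B z 1 1 cA cB
  have h5 : (fun w => 1 * A w + 1 * B w) = fun w => A w + B w := by
    funext w; ring
  rw [h5] at h4
  rw [eA, dA] at h1
  rw [eB, dB] at h2
  rw [dS, h4] at h3
  have h6 : lap A z = A z * lA + ‖x‖ ^ 2 / A z := by
    rw [h1]; field_simp; ring
  have h7 : lap B z = B z * lB + ‖y‖ ^ 2 / B z := by
    rw [h2]; field_simp; ring
  rw [h3, h6, h7]
  have h8 : ‖(B z : ℂ) * x - (A z : ℂ) * y‖ ^ 2 =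
      B z ^ 2 * ‖x‖ ^ 2 + A z ^ 2 * ‖y‖ ^ 2 - 2 * (A z * B z) * (x * conj y).re := by
    rw [← Complex.normSq_eq_norm_sq, ← Complex.normSq_eq_norm_sq, ← Complex.normSq_eq_norm_sq]
    simp only [Complex.normSq_apply, sub_re, sub_im, mul_re, mul_im, ofReal_re, ofReal_im,
      conj_re, conj_im]
    ring
  have h9 : ‖x + y‖ ^ 2 = ‖x‖ ^ 2 + ‖y‖ ^ 2 + 2 * (x * conj y).re := by
    rw [← Complex.normSq_eq_norm_sq, ← Complex.normSq_eq_norm_sq, ← Complex.normSq_eq_norm_sq]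
    simp only [Complex.normSq_apply, add_re, add_im, mul_re, mul_im, conj_re, conj_im]
    ring
  rw [h8, h9]
  have hS : A z + B z ≠ 0 := (add_pos pA pB).ne'
  have hA := pA.ne'
  have hB := pB.ne'
  field_simp
  ring

theorem EGS_trans (u : ℂ → ℝ) (z : ℂ) : lap u z = lap (fun y => u (z + y)) 0 := by
  unfold lap
  simp only [zero_add]

theorem EGS_lap_zero : ∀ z : ℂ, lap (fun _ => (1 : ℝ)) z = 0 := by
  intro z
  unfold lap
  simp [iteratedDeriv_const]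

theorem EGS_congr {u v : ℂ → ℝ} {z : ℂ} (h : u =ᶠ[𝓝 z] v) : lap u z = lap v z := by
  have h1 : (fun t : ℝ => u (z + t)) =ᶠ[𝓝 0] fun t : ℝ => v (z + t) := by
    have hc : Filter.Tendsto (fun t : ℝ => z + (t : ℂ)) (𝓝 0) (𝓝 z) := by
      have : Continuous (fun t : ℝ => z + (t : ℂ)) := by fun_prop
      simpa using this.tendsto 0
    exact hc.eventually h
  have h2 : (fun t : ℝ => u (z + t * I)) =ᶠ[𝓝 0] fun t : ℝ => v (z + t * I) := by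
    have hc : Filter.Tendsto (fun t : ℝ => z + (t : ℂ) * I) (𝓝 0) (𝓝 z) := by
      have : Continuous (fun t : ℝ => z + (t : ℂ) * I) := by fun_prop
      simpa using this.tendsto 0
    exact hc.eventually h
  unfold lap
  rw [h1.iteratedDeriv_eq 2, h2.iteratedDeriv_eq 2]

theorem EGS_A (hLA : LA_stmt) (hELQ : ELQ_stmt) (ψ : ℂ → ℂ) (ρ : ℝ) (hρ : 0 < ρ)
    (hψ : DifferentiableOn ℂ ψ (Metric.ball 0 ρ)) :
    ContDiffAt ℝ 2 (fun y => (1 + ‖ψ y‖ ^ 2) ^ 4) 0 ∧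
    lap (fun y => Real.log ((1 + ‖ψ y‖ ^ 2) ^ 4)) 0 =
      4 * (‖deriv ψ 0‖ ^ 2 / (1 + ‖ψ 0‖ ^ 2) ^ 2) ∧
    HasFDerivAt (fun y => (1 + ‖ψ y‖ ^ 2) ^ 4)
      (EGS_L ((4 * (1 + ‖ψ 0‖ ^ 2) ^ 3 : ℝ) * (2 * (conj (ψ 0) * deriv ψ 0)))) 0 := by
  obtain ⟨h1, h2⟩ := hELQ ψ ρ hρ hψ
  have ho : Metric.ball (0 : ℂ) ρ ∈ 𝓝 (0 : ℂ) := Metric.ball_mem_nhds 0 hρ
  have hd : DifferentiableAt ℂ ψ 0 := hψ.differentiableAt ho
  have hc : ContDiffAt ℝ 2 ψ 0 := (hψ.analyticAt ho).contDiffAt.restrict_scalars ℝ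
  refine ⟨(contDiffAt_const.add (hc.norm_sq ℝ)).pow 4, ?_, ?_⟩
  · have h3 := hLA.1 (fun y => Real.log (1 + ‖ψ y‖ ^ 2)) (fun y => Real.log (1 + ‖ψ y‖ ^ 2)) 0 4 0
      h1 h1
    have h4 : (fun y => Real.log ((1 + ‖ψ y‖ ^ 2) ^ 4)) = fun y =>
        4 * Real.log (1 + ‖ψ y‖ ^ 2) + 0 * Real.log (1 + ‖ψ y‖ ^ 2) := by
      funext y
      rw [Real.log_pow]
      push_cast
      ring
    rw [h4, h3, h2]
    ring
  · exact EGS_pow4 (EGS_one_add (EGS_sq hd.hasDerivAt))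

theorem EGS_le18 (z : ℂ) (hz : z ∈ Dk) : Sg z ≤ 18 := by
  have h1 : ‖z‖ ≤ 1 := by simpa using hz
  unfold Sg
  have h2 : ‖z‖ ^ 2 ≤ 1 := pow_le_one₀ (norm_nonneg _) h1
  have h3 : (1 + ‖z‖ ^ 2) ^ 4 ≤ 2 ^ 4 := pow_le_pow_left₀ (by positivity) (by linarith) 4
  have h4 : ‖1 - z ^ 8‖ ≤ 1 + 1 := by
    refine (norm_sub_le _ _).trans ?_
    rw [norm_one, norm_pow]
    have := pow_le_one₀ (norm_nonneg z) h1 (n := 8)
    linarith
  norm_num at h3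
  linarith

theorem EGS_one_le (z : ℂ) : 1 ≤ Sg z := by
  unfold Sg
  have h3 : 1 ≤ (1 + ‖z‖ ^ 2) ^ 4 := one_le_pow₀ (by nlinarith [sq_nonneg ‖z‖])
  linarith [norm_nonneg (1 - z ^ 8)]

theorem EGS_glue (z : ℂ) (hz : z ≠ 0) : Sg z = ‖z‖ ^ 8 * Sg z⁻¹ := by
  unfold Sg
  have h1 : ‖z‖ ≠ 0 := norm_ne_zero_iff.2 hz
  have h2 : ‖1 - z ^ 8‖ = ‖z‖ ^ 8 * ‖1 - z⁻¹ ^ 8‖ := by
    rw [← norm_pow, ← norm_mul, ← norm_neg]
    congr 1
    field_simp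
    ring
  rw [h2, norm_inv]
  field_simp
  ring

/-- The bound off the roots. -/
theorem EGS_off (hLA : LA_stmt) (hRA : RA_stmt) (hELQ : ELQ_stmt) (z : ℂ) (hz : z ∈ Dk)
    (h8 : z ^ 8 ≠ 1) : ContDiffAt ℝ 2 (fun w => Real.log (Sg w)) z ∧
      (1 / 100) * Wt 1 z ≤ 1 / 2 * lap (fun w => Real.log (Sg w)) z := by
  have hf0 : (1 : ℂ) - z ^ 8 ≠ 0 := sub_ne_zero.2 (Ne.symm h8)
  have hcB : ContDiffAt ℝ 2 (fun w : ℂ => ‖1 - w ^ 8‖) z := by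
    have hf : ContDiffAt ℝ 2 (fun w : ℂ => 1 - w ^ 8) z := by fun_prop
    exact hf.norm ℝ hf0
  have hcA : ContDiffAt ℝ 2 (fun w : ℂ => (1 + ‖w‖ ^ 2) ^ 4) z :=
    (contDiffAt_const.add (contDiffAt_id.norm_sq ℝ)).pow 4
  have hcS : ContDiffAt ℝ 2 Sg z := hcA.add hcB
  refine ⟨hcS.log (by linarith [EGS_one_le z]), ?_⟩
  -- translate
  rw [EGS_trans]
  have hψ : DifferentiableOn ℂ (fun y : ℂ => z + y) (Metric.ball 0 1) := by fun_prop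
  obtain ⟨a1, a2, a3⟩ := EGS_A hLA hELQ (fun y => z + y) 1 one_pos hψ
  have hdψ : deriv (fun y : ℂ => z + y) 0 = 1 := by
    simp
  rw [hdψ] at a2 a3
  simp only [add_zero, norm_one, mul_one] at a2 a3
  have hfd : HasDerivAt (fun y : ℂ => 1 - (z + y) ^ 8) (-(8 * z ^ 7)) 0 := by
    have h1 : HasDerivAt (fun y : ℂ => z + y) 1 0 := by
      simpa using (hasDerivAt_id (0 : ℂ)).const_add z
    have h2 := (h1.pow 8).const_sub 1
    refine h2.congr_deriv ?_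
    simp
  have hf0' : (fun y : ℂ => 1 - (z + y) ^ 8) 0 ≠ 0 := by simpa using hf0
  have b1 := EGS_norm hfd hf0'
  have hfa : AnalyticAt ℂ (fun y : ℂ => 1 - (z + y) ^ 8) 0 := by fun_prop
  obtain ⟨b2, b3⟩ := hRA.2 _ 0 hfa hf0'
  have hcB' : ContDiffAt ℝ 2 (fun w : ℂ => ‖1 - (z + w) ^ 8‖) 0 := by
    have hf : ContDiffAt ℝ 2 (fun w : ℂ => 1 - (z + w) ^ 8) 0 := by fun_prop
    exact hf.norm ℝ (by simpa using hf0)
  simp only [add_zero] at b1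
  have key := EGS_logsum hLA (fun y => (1 + ‖z + y‖ ^ 2) ^ 4) (fun y => ‖1 - (z + y) ^ 8‖) 0 _ _ _ _
    a1 hcB' (by positivity) (by simpa using norm_pos_iff.2 hf0) (EGS_dz a3) (EGS_dz b1)
    (by rw [EGS_dz (EGS_add a3 b1), add_div]) a2 b3
  have hS : (fun y => Real.log (Sg (z + y))) =
      fun y => Real.log ((1 + ‖z + y‖ ^ 2) ^ 4 + ‖1 - (z + y) ^ 8‖) := rfl
  rw [hS, key]
  simp only [add_zero, mul_zero]
  unfold Wt
  have hr1 : ‖z‖ ≤ 1 := by simpa using hz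
  have hr0 : 0 ≤ ‖z‖ := norm_nonneg z
  have hb : 0 < ‖1 - z ^ 8‖ := norm_pos_iff.2 hf0
  have hSle := EGS_le18 z hz
  have hb8 : 1 - ‖z‖ ^ 8 ≤ ‖1 - z ^ 8‖ := by
    have := norm_sub_norm_le (1 : ℂ) (z ^ 8)
    rwa [norm_one, norm_pow] at this
  unfold Sg at hSle
  generalize hN : 1 + ‖z‖ ^ 2 = N at *
  have hN1 : 1 ≤ N := by rw [← hN]; nlinarith [sq_nonneg ‖z‖]
  have hN0 : 0 < N := by linarith
  -- the two norms
  set T : ℂ := (‖1 - z ^ 8‖ : ℂ) * (((4 * N ^ 3 : ℝ) : ℂ) * (2 * conj z) / 2) -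
    ((N ^ 4 : ℝ) : ℂ) * (((‖1 - z ^ 8‖⁻¹ : ℝ) : ℂ) * (conj (1 - z ^ 8) * -(8 * z ^ 7)) / 2) with hT
  have hTn : 4 * N ^ 3 * (N * ‖z‖ ^ 7 - ‖z‖ * ‖1 - z ^ 8‖) ≤ ‖T‖ := by
    have t1 : ‖(‖1 - z ^ 8‖ : ℂ) * (((4 * N ^ 3 : ℝ) : ℂ) * (2 * conj z) / 2)‖ =
        4 * N ^ 3 * (‖z‖ * ‖1 - z ^ 8‖) := by
      rw [norm_mul, norm_div, norm_mul, norm_mul, Complex.norm_real, Complex.norm_real,
        Complex.norm_conj, Real.norm_of_nonneg hb.le, Real.norm_of_nonneg (by positivity)]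
      norm_num
      ring
    have t2 : ‖((N ^ 4 : ℝ) : ℂ) * (((‖1 - z ^ 8‖⁻¹ : ℝ) : ℂ) *
        (conj (1 - z ^ 8) * -(8 * z ^ 7)) / 2)‖ = 4 * N ^ 3 * (N * ‖z‖ ^ 7) := by
      rw [norm_mul, norm_div, norm_mul, norm_mul, Complex.norm_real, Complex.norm_real,
        Complex.norm_conj, Real.norm_of_nonneg (by positivity), Real.norm_of_nonneg (by positivity),
        norm_neg, norm_mul, norm_pow]
      norm_num
      field_simp
      ring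
    have t3 : ∀ X Y : ℂ, ‖Y‖ - ‖X‖ ≤ ‖X - Y‖ := fun X Y => by
      rw [norm_sub_rev X Y]; exact norm_sub_norm_le Y X
    have t4 := t3 ((‖1 - z ^ 8‖ : ℂ) * (((4 * N ^ 3 : ℝ) : ℂ) * (2 * conj z) / 2))
      (((N ^ 4 : ℝ) : ℂ) * (((‖1 - z ^ 8‖⁻¹ : ℝ) : ℂ) *
        (conj (1 - z ^ 8) * -(8 * z ^ 7)) / 2))
    rw [t1, t2, ← hT] at t4
    linarith
  generalize hbb : ‖1 - z ^ 8‖ = b at *
  have hSp : 0 < N ^ 4 + b := by positivity
  have e1 : N ^ 4 * (4 * (1 ^ 2 / N ^ 2)) / (N ^ 4 + b) = 4 * N ^ 2 / (N ^ 4 + b) := by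
    field_simp
  have e2 : 0 ≤ ‖T‖ ^ 2 / (N ^ 4 * b * (N ^ 4 + b) ^ 2) := by positivity
  have e3 : 0 ≤ 4 * N ^ 2 / (N ^ 4 + b) := by positivity
  rw [e1]
  by_cases hc : 1 / 10 ≤ b
  · have e4 : 4 / 18 ≤ 4 * N ^ 2 / (N ^ 4 + b) := by
      rw [div_le_div_iff₀ (by norm_num) hSp]
      nlinarith [one_le_pow₀ hN1 (n := 2)]
    have e5 : 1 / b ≤ 10 := by
      rw [div_le_iff₀ hb]
      linarith
    linarith
  · push Not at hc
    have f1 : 9 / 10 ≤ ‖z‖ ^ 8 := by linarith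
    have f2 : ‖z‖ ^ 8 ≤ ‖z‖ ^ 7 := pow_le_pow_of_le_one hr0 hr1 (by norm_num)
    have f3 : ‖z‖ * b ≤ 1 / 10 := by nlinarith
    have f4 : 4 / 5 ≤ N * ‖z‖ ^ 7 - ‖z‖ * b := by nlinarith [pow_nonneg hr0 7]
    have f5 : 16 / 5 * N ^ 3 ≤ ‖T‖ := by
      refine le_trans ?_ hTn
      have : 0 < 4 * N ^ 3 := by positivity
      nlinarith
    have f6 : (16 / 5 * N ^ 3) ^ 2 ≤ ‖T‖ ^ 2 := pow_le_pow_left₀ (by positivity) f5 2
    have f7 : 1 / 50 * (1 / b) ≤ ‖T‖ ^ 2 / (N ^ 4 * b * (N ^ 4 + b) ^ 2) := by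
      rw [show 1 / 50 * (1 / b) = 1 / (50 * b) by field_simp, div_le_div_iff₀ (by positivity) (by positivity)]
      have g1 : (N ^ 4 + b) ^ 2 ≤ 18 ^ 2 := pow_le_pow_left₀ hSp.le hSle 2
      have g2 : 1 ≤ N ^ 2 := one_le_pow₀ hN1
      have g3 : N ^ 4 * b * (N ^ 4 + b) ^ 2 ≤ N ^ 4 * b * 18 ^ 2 := by
        have : 0 < N ^ 4 * b := by positivity
        nlinarith
      have g4 : (16 / 5 * N ^ 3) ^ 2 * (50 * b) ≤ ‖T‖ ^ 2 * (50 * b) := by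
        have : 0 < 50 * b := by positivity
        nlinarith
      have g5 : N ^ 4 * b * 18 ^ 2 ≤ (16 / 5 * N ^ 3) ^ 2 * (50 * b) := by
        have : (16 / 5 * N ^ 3) ^ 2 * (50 * b) = N ^ 4 * b * 512 * N ^ 2 := by ring
        rw [this]
        have h0 : 0 < N ^ 4 * b := by positivity
        nlinarith
      linarith
    linarith

/-- The bound at the roots. -/
theorem EGS_root (hEPS : EPS_stmt) (hLA : LA_stmt) (hELQ : ELQ_stmt) (d : ℂ) (hd : d ^ 8 = 1) :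
    ContDiffAt ℝ 2 (fun y => Real.log (Sg (psi d y))) 0 ∧
      (1 / 100) * Wr 1 0 ≤ 1 / 2 * lap (fun y => Real.log (Sg (psi d y))) 0 := by
  obtain ⟨p0, pd, p1, p2⟩ := hEPS d hd
  obtain ⟨_, w1, _⟩ := p2 1 one_pos
  rw [w1]
  have hb0 : Metric.ball (0 : ℂ) 1 ∈ 𝓝 (0 : ℂ) := Metric.ball_mem_nhds 0 one_pos
  have hp' : deriv (psi d) 0 = 0 := by
    rw [(p1 0 (Metric.mem_ball_self one_pos)).2.2.1]
    simp
  have hg : DifferentiableOn ℂ (fun y : ℂ => 2 * y / (1 + y ^ 2)) (Metric.ball 0 1) := by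
    intro y hy
    have hy' : ‖y‖ < 1 := by simpa using hy
    have hne : 1 + y ^ 2 ≠ 0 := by
      intro h
      have h1 : y ^ 2 = -1 := by linear_combination h
      have h2 : ‖y‖ ^ 2 = 1 := by rw [← norm_pow, h1, norm_neg, norm_one]
      nlinarith [norm_nonneg y]
    have : DifferentiableAt ℂ (fun y : ℂ => 2 * y / (1 + y ^ 2)) y :=
      DifferentiableAt.div (by fun_prop) (by fun_prop) hne
    exact this.differentiableWithinAt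
  have hgd : HasDerivAt (fun y : ℂ => 2 * y / (1 + y ^ 2)) 2 0 := by
    have h1 : HasDerivAt (fun y : ℂ => 2 * y) 2 0 := by
      simpa using (hasDerivAt_id (0 : ℂ)).const_mul 2
    have h2 : HasDerivAt (fun y : ℂ => 1 + y ^ 2) 0 0 := by
      simpa using ((hasDerivAt_id (0 : ℂ)).pow 2).const_add 1
    have h3 := h1.div h2 (by simp)
    refine h3.congr_deriv ?_
    simp
  obtain ⟨a1, a2, a3⟩ := EGS_A hLA hELQ (psi d) 1 one_pos pd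
  obtain ⟨q1, q2⟩ := hELQ (fun y : ℂ => 2 * y / (1 + y ^ 2)) 1 one_pos hg
  rw [hgd.deriv] at q2
  rw [hp'] at a2 a3
  have hcg : ContDiffAt ℝ 2 (fun y : ℂ => 2 * y / (1 + y ^ 2)) 0 :=
    (hg.analyticAt hb0).contDiffAt.restrict_scalars ℝ
  have hcn : ContDiffAt ℝ 2 (fun y : ℂ => 1 + ‖2 * y / (1 + y ^ 2)‖ ^ 2) 0 :=
    contDiffAt_const.add (hcg.norm_sq ℝ)
  have hg2 := EGS_sq hgd
  have hd1 : ‖psi d 0‖ = 1 := by
    rw [p0]
    have h1 : ‖d‖ ^ 8 = 1 := by rw [← norm_pow, hd, norm_one]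
    exact (pow_eq_one_iff_of_nonneg (norm_nonneg d) (by norm_num)).1 h1
  -- lap of the first part
  have l1 := hLA.2 _ 0 a1 (by positivity)
  rw [a2, EGS_dz a3, hd1] at l1
  -- lap of the second part
  have l2 := hLA.2 _ 0 hcn (by positivity)
  rw [q2, EGS_dz (EGS_one_add hg2)] at l2
  have l3 := hLA.1 _ _ 0 1 1 a1 hcn
  have l4 := hLA.1 (fun y => 1 * (1 + ‖psi d y‖ ^ 2) ^ 4 + 1 * (1 + ‖2 * y / (1 + y ^ 2)‖ ^ 2))
    (fun _ => 1) 0 1 (-1) ((contDiffAt_const.mul a1).add (contDiffAt_const.mul hcn)) contDiffAt_const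
  rw [l3, EGS_lap_zero] at l4
  have e1 : (fun y : ℂ => (1 : ℝ) * (1 * (1 + ‖psi d y‖ ^ 2) ^ 4 + 1 * (1 + ‖2 * y / (1 + y ^ 2)‖ ^ 2)) + -1 * 1) =
      fun y => (1 + ‖psi d y‖ ^ 2) ^ 4 + ‖2 * y / (1 + y ^ 2)‖ ^ 2 := by
    funext y
    ring
  rw [e1] at l4
  have hcN : ContDiffAt ℝ 2 (fun y => (1 + ‖psi d y‖ ^ 2) ^ 4 + ‖2 * y / (1 + y ^ 2)‖ ^ 2) 0 :=
    a1.add (hcg.norm_sq ℝ)
  have hpos : 0 < (1 + ‖psi d 0‖ ^ 2) ^ 4 + ‖2 * (0 : ℂ) / (1 + 0 ^ 2)‖ ^ 2 := by positivity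
  have l5 := hLA.2 _ 0 hcN hpos
  rw [l4, EGS_dz (EGS_add a3 hg2), hd1] at l5
  have hcong : (fun y => Sg (psi d y)) =ᶠ[𝓝 0] fun y => (1 + ‖psi d y‖ ^ 2) ^ 4 + ‖2 * y / (1 + y ^ 2)‖ ^ 2 := by
    filter_upwards [hb0] with y hy
    unfold Sg
    rw [(p1 y hy).1, norm_pow]
  have hcong2 : (fun y => Real.log (Sg (psi d y))) =ᶠ[𝓝 0] fun y =>
      Real.log ((1 + ‖psi d y‖ ^ 2) ^ 4 + ‖2 * y / (1 + y ^ 2)‖ ^ 2) :=
    hcong.fun_comp Real.log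
  refine ⟨(hcN.log hpos.ne').congr_of_eventuallyEq hcong2, ?_⟩
  rw [EGS_congr hcong2, l5]
  clear l3 l4 l5
  generalize lap (fun y => (1 + ‖psi d y‖ ^ 2) ^ 4) 0 = L1 at *
  generalize lap (fun y : ℂ => 1 + ‖2 * y / (1 + y ^ 2)‖ ^ 2) 0 = L2 at *
  simp at l1 l2
  have m1 : L1 = 0 := by
    norm_num at l1
    linarith
  have m2 : L2 = 4 := by
    norm_num at l2
    linarith
  rw [m1, m2]
  simp
  norm_num

theorem EGS (hEPS : EPS_stmt) (hLA : LA_stmt) (hRA : RA_stmt) (hELQ : ELQ_stmt) : EGS_stmt := by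
  refine ⟨⟨1 / 100, by norm_num, fun z hz h8 => EGS_off hLA hRA hELQ z hz h8,
    fun d hd => EGS_root hEPS hLA hELQ d hd⟩, ?_, EGS_one_le, EGS_le18, EGS_glue⟩
  unfold Sg
  fun_prop

end

end Pool.Agent.DL
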